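import Pool.Agent.Helper44.CM.Defs

/-!
# Project MM, route CM: top level statements of the blocks

Every `ST_X` is a closed proposition; the block owners cut them into rows.
Variant B: everything happens for `u` of class `H2 3` (second derivatives in `C^{3,1/2}`);
there are no difference quotients and no nonsmooth right hand sides.
-/

open MeasureTheory

namespace CM

/-- B1: a priori bounds for solutions (maximum principle). -/
def ST_B1 : Prop :=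
  ∀ (n : ℕ) (c K R0 : ℝ), ∃ K1 : ℝ, ∀ F V : E n → ℝ, FOK c K R0 F → Sol F V →
    (∀ x, LB c (hess V x)) ∧
    (∀ x i j, |hess V x i j| ≤ K1) ∧
    (∀ x (l : List (Fin n)), l.length = 3 → |pdl l V x| ≤ K1) ∧
    (∀ x i j, |hess V x i j - (1 : Mt n) i j| ≤ K1 / Real.sqrt (1 + ‖x‖))

/-- B2a: Schauder estimate for the constant coefficient operator `-Δ + x.∇ - κ`, `κ ≤ 1`. -/
def ST_BE0 : Prop :=
  ∀ n : ℕ, ∃ C : ℝ, ∀ (κ : ℝ) (u : E n → ℝ) (M N : ℝ), κ ≤ 1 → ContDiff ℝ 2 u →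
    (∀ x i j, |pd i (pd j u) x| ≤ M) → H0 N (AK (fun _ => 1) κ u) →
    ∀ i j, H0 (C * N) (pd i (pd j u))

/-- B2b: solution operator of `-Δ + x.∇ - 1` on even functions. -/
def ST_S0 : Prop :=
  ∀ n : ℕ, ∃ C : ℝ, ∀ (r : E n → ℝ) (N : ℝ), IsEv r → HB 3 N r →
    ∃ u : E n → ℝ, IsEv u ∧ H2 3 (C * N) u ∧ ∀ x, AK (fun _ => 1) 1 u x = r x

/-- Hypotheses on a variable coefficient. -/
structure Coef (K : ℝ) {n : ℕ} (τ : E n → Mt n) : Prop where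
  K_ge : 1 ≤ K
  symm : ∀ x, (τ x).IsSymm
  lo : ∀ x, LB K⁻¹ (τ x)
  bd : ∀ x i j, |τ x i j| ≤ K
  lip : ∀ x y i j, |τ x i j - τ y i j| ≤ K * dist x y
  far : ∀ x i j, |τ x i j - (1 : Mt n) i j| ≤ K / Real.sqrt (1 + ‖x‖)

/-- B3: Schauder estimate for variable coefficients. -/
def ST_BE : Prop :=
  ∀ (n : ℕ) (K κ : ℝ), κ ≤ 1 → ∃ C R : ℝ, ∀ (τ : E n → Mt n), Coef K τ →
    ∀ (u : E n → ℝ) (M N : ℝ), H2 0 M u → H0 N (AK τ κ u) →
    (∀ x, ‖x‖ ≤ R → |u x| ≤ N) → (∀ x i, ‖x‖ ≤ R → |pd i u x| ≤ N) → H2 0 (C * N) u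

/-- B4: the L² estimate (the weight is `exp(-|x|²/2)`, comparable with `exp (-WW V)`). -/
def ST_L2 : Prop :=
  ∀ (n : ℕ) (c K : ℝ), 0 < c → ∃ C : ℝ, ∀ (V : E n → ℝ), ContDiff ℝ 5 V → IsEv V →
    (∀ x, LB c (hess V x)) → (∀ x i j, |hess V x i j| ≤ K) →
    (∃ M, H2 3 M V) → (∀ x, |WW V x - qn x| ≤ K) →
    ∀ (u r : E n → ℝ) (M N : ℝ), IsEv u → H2 3 M u → (∀ x, AK (tau V) 1 u x = r x) →
      (∀ x, |r x| ≤ N) →
      Integrable (fun x : E n => (∑ i, ∑ j, (pd i (pd j u) x) ^ 2) * Real.exp (- qn x)) ∧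
      ∫ x : E n, (∑ i, ∑ j, (pd i (pd j u) x) ^ 2) * Real.exp (- qn x) ≤ C * N ^ 2

/-- B5: existence of the moment map potential, and linear solvability. -/
def ST_EX : Prop :=
  ∀ (n : ℕ) (c K R0 : ℝ) (F : E n → ℝ), FOK c K R0 F → ∃ V : E n → ℝ, Sol F V ∧ LinSolv V

/-- The vector field `v = τ ∇ f`, `f = (A-1) h`. -/
noncomputable def vf {n : ℕ} (V h : E n → ℝ) (i : Fin n) : E n → ℝ :=
  fun x => ∑ j, tau V x i j * pd j (AK (tau V) 1 h) x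

/-- `g = A (A - 1) h`. -/
noncomputable def gf {n : ℕ} (V h : E n → ℝ) : E n → ℝ := AK (tau V) 0 (AK (tau V) 1 h)

/-- `N = τ D²h τ`. -/
noncomputable def Nf {n : ℕ} (V h : E n → ℝ) (x : E n) : Mt n := tau V x * hess h x * tau V x

/-- `N V'' N + v ⊗ v`. -/
noncomputable def Mf {n : ℕ} (V h : E n → ℝ) (x : E n) : Mt n :=
  Nf V h x * hess V x * Nf V h x + Matrix.of fun i j => vf V h i x * vf V h j x

/-- B6: the inequality (K), for compactly supported `h`. -/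
def ST_K : Prop :=
  ∀ (n : ℕ) (F V h : E n → ℝ), (∃ c K R0, FOK c K R0 F) → Sol F V → ContDiff ℝ 5 h →
    HasCompactSupport h →
    ∫ x : E n, tr2 (hess (WW V) x) (Mf V h x) * Real.exp (- WW V x) ≤
      ∫ x : E n, (gf V h x) ^ 2 * Real.exp (- WW V x)

/-- (a): `E DΨ = E tr(τ Ψ'')`. -/
def ST_STEIN : Prop :=
  ∀ (n : ℕ) (F V Ψ : E n → ℝ) (M : ℝ), (∃ c K R0, FOK c K R0 F) → Sol F V → ContDiff ℝ 2 Ψ →
    (∀ x i j, |pd i (pd j Ψ) x| ≤ M) →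
    Integrable (fun x : E n => eul Ψ x * Real.exp (- WW V x)) ∧
    Integrable (fun x : E n => tr2 (tau V x) (hess Ψ x) * Real.exp (- WW V x)) ∧
    ∫ x : E n, eul Ψ x * Real.exp (- WW V x) =
      ∫ x : E n, tr2 (tau V x) (hess Ψ x) * Real.exp (- WW V x)

/-- (b): `E g DΨ = E tr(Ψ'' N) + E <Ψ'' x, v>`, for compactly supported `h`. -/
def ST_PAIR : Prop :=
  ∀ (n : ℕ) (F V h Ψ : E n → ℝ), (∃ c K R0, FOK c K R0 F) → Sol F V → ContDiff ℝ 5 h →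
    HasCompactSupport h → ContDiff ℝ 2 Ψ →
    ∫ x : E n, gf V h x * eul Ψ x * Real.exp (- WW V x) =
      ∫ x : E n, (tr2 (hess Ψ x) (Nf V h x) +
        ∑ i, ∑ j, hess Ψ x i j * x i * vf V h j x) * Real.exp (- WW V x)

/-- B7a: density of `A (A - 1) h` in the even functions of mean zero. -/
def ST_DENS : Prop :=
  ∀ (n : ℕ) (F V g : E n → ℝ), (∃ c K R0, FOK c K R0 F) → Sol F V → LinSolv V → IsEv g →
    Continuous g → (∃ (C : ℝ) (k : ℕ), ∀ x, |g x| ≤ C * (1 + ‖x‖) ^ k) →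
    ∫ x : E n, g x * Real.exp (- WW V x) = 0 →
    ∀ ε > 0, ∃ h : E n → ℝ, ContDiff ℝ 5 h ∧ HasCompactSupport h ∧ IsEv h ∧
      ∫ x : E n, (g x - gf V h x) ^ 2 * Real.exp (- WW V x) < ε

/-- B7b: the variance inequality (*) for the class. -/
def ST_STAR : Prop :=
  ∀ (n : ℕ) (F : E n → ℝ), (∃ c K R0, FOK c K R0 F) →
    ∀ (N : ℕ) (Ψ : Fin N → E n → ℝ) (M : ℝ), (∀ a, ContDiff ℝ 2 (Ψ a)) → (∀ a, IsEv (Ψ a)) →
      (∀ a x, LB 0 (hess (Ψ a) x)) → (∀ a x i j, |pd i (pd j (Ψ a)) x| ≤ M) →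
      (∀ x, ∑ a, Ψ a x = qn x + F x) →
      ∀ s : Fin N → ℝ,
        (∫ x : E n, Real.exp (- (qn x + F x))) *
            (∫ x : E n, (∑ a, s a * eul (Ψ a) x) ^ 2 * Real.exp (- (qn x + F x)))
          - (∫ x : E n, (∑ a, s a * eul (Ψ a) x) * Real.exp (- (qn x + F x))) ^ 2 ≤
        (∫ x : E n, Real.exp (- (qn x + F x))) *
          ∫ x : E n, (∑ a, s a ^ 2 * (eul (Ψ a) x +
            ∑ i, ∑ j, x i * x j * hess (Ψ a) x i j)) * Real.exp (- (qn x + F x))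

end CM
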