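import Mathlib

/-!
# Project MM, route CM: definitions

Existence of a moment map potential by the continuity method.
All functions live on `E n = EuclideanSpace ℝ (Fin n)`.
-/

open MeasureTheory

namespace CM

/-- Euclidean space. -/
abbrev E (n : ℕ) := EuclideanSpace ℝ (Fin n)

/-- Square matrices. -/
abbrev Mt (n : ℕ) := Matrix (Fin n) (Fin n) ℝ

variable {n : ℕ}

/-- Partial derivative in the direction of the `i`-th basis vector. -/
noncomputable def pd (i : Fin n) (f : E n → ℝ) : E n → ℝ :=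
  fun x => fderiv ℝ f x (EuclideanSpace.single i (1 : ℝ))

/-- Iterated partial derivative. -/
noncomputable def pdl : List (Fin n) → (E n → ℝ) → (E n → ℝ)
  | [], f => f
  | i :: l, f => pd i (pdl l f)

/-- Bounded by `K` and Hoelder of exponent 1/2 with constant `K`. -/
def H0 (K : ℝ) (f : E n → ℝ) : Prop :=
  (∀ x, |f x| ≤ K) ∧ ∀ x y, |f x - f y| ≤ K * Real.sqrt (dist x y)

/-- `C^k`, and all partial derivatives of order at most `k` are `H0 K`. -/
def HB (k : ℕ) (K : ℝ) (f : E n → ℝ) : Prop :=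
  ContDiff ℝ k f ∧ ∀ l : List (Fin n), l.length ≤ k → H0 K (pdl l f)

/-- Hessian matrix. -/
noncomputable def hess (f : E n → ℝ) (x : E n) : Mt n :=
  Matrix.of fun i j => pd i (pd j f) x

/-- `C^(k+2)` and the second partial derivatives are `HB k K`. -/
def H2 (k : ℕ) (K : ℝ) (u : E n → ℝ) : Prop :=
  ContDiff ℝ (k + 2 : ℕ) u ∧ ∀ i j, HB k K (pd i (pd j u))

/-- Even function. -/
def IsEv (f : E n → ℝ) : Prop := ∀ x, f (-x) = f x

/-- Euler operator `x . grad f`. -/
noncomputable def eul (f : E n → ℝ) : E n → ℝ := fun x => fderiv ℝ f x x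

/-- Contraction of two matrices. -/
def tr2 (M N : Mt n) : ℝ := ∑ i, ∑ j, M i j * N i j

/-- The operator `tr(τ D²f) - x . grad f`. -/
noncomputable def LL (τ : E n → Mt n) (f : E n → ℝ) : E n → ℝ :=
  fun x => tr2 (τ x) (hess f x) - eul f x

/-- The operator `A - κ`, `A = -L`. -/
noncomputable def AK (τ : E n → Mt n) (κ : ℝ) (u : E n → ℝ) : E n → ℝ :=
  fun x => - LL τ u x - κ * u x

/-- Lower bound for the quadratic form of a matrix. -/
def LB (c : ℝ) (M : Mt n) : Prop :=
  ∀ v : Fin n → ℝ, c * ∑ i, v i ^ 2 ≤ ∑ i, ∑ j, v i * M i j * v j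

/-- Upper bound for the quadratic form of a matrix. -/
def UB (C : ℝ) (M : Mt n) : Prop :=
  ∀ v : Fin n → ℝ, ∑ i, ∑ j, v i * M i j * v j ≤ C * ∑ i, v i ^ 2

/-- The moment map transform `x . grad V - V - log det D²V`. -/
noncomputable def WW (V : E n → ℝ) : E n → ℝ :=
  fun x => eul V x - V x - Real.log (hess V x).det

/-- Inverse of the Hessian. -/
noncomputable def tau (V : E n → ℝ) : E n → Mt n := fun x => (hess V x)⁻¹

/-- `|x|²/2`. -/
noncomputable def qn (x : E n) : ℝ := ‖x‖ ^ 2 / 2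

/-- The right hand sides: the potential is `W = qn + F`. -/
structure FOK (c K R0 : ℝ) (F : E n → ℝ) : Prop where
  c_pos : 0 < c
  c_le : c ≤ 1
  K_ge : 1 ≤ K
  R_ge : 1 ≤ R0
  even : IsEv F
  bd : HB 5 K F
  far : ∀ x y, R0 ≤ ‖x‖ → R0 ≤ ‖y‖ → F x = F y
  cvx : ∀ x, LB c (1 + hess F x)

/-- `V` is a solution of the moment map equation with potential `qn + F`. -/
structure Sol (F V : E n → ℝ) : Prop where
  even : IsEv V
  reg : ∃ M, H2 3 M V
  pos : ∃ a, 0 < a ∧ ∀ x, LB a (hess V x)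
  eq : ∀ x, WW V x = qn x + F x

/-- Uniform bounds for a solution: the conclusion of the a priori estimates. -/
structure Pack (c K : ℝ) (V : E n → ℝ) : Prop where
  lo : ∀ x, LB c (hess V x)
  bd : H2 3 K V
  far : ∀ x i j, |hess V x i j - (1 : Mt n) i j| ≤ K / Real.sqrt (1 + ‖x‖)
  gau : ∀ x, |WW V x - qn x| ≤ K

/-- Linear solvability of `A - 1` at `V` on even functions. -/
def LinSolv (V : E n → ℝ) : Prop :=
  ∀ (r : E n → ℝ) (N : ℝ), IsEv r → HB 3 N r →
    ∃ (u : E n → ℝ) (M : ℝ), IsEv u ∧ H2 3 M u ∧ ∀ x, AK (tau V) 1 u x = r x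

end CM
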