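import Pool.Agent.Helper22.MM.UNI
import Pool.Agent.Helper50.MM.RowLOC
import Pool.Agent.Helper50.MM.RowFAR
import Pool.Agent.Helper50.MM.RowCUT
import Pool.Agent.Helper35.MM.Bridge
import Pool.Agent.Helper35.MM.BrBE
import Pool.Agent.Helper35.MM.Int1
import Pool.Agent.Helper35.MM.Int2
import Pool.Agent.Helper29.MM.Level
import Pool.Agent.Helper29.MM.Even
import Pool.Agent.Helper82.MM.APL
import Pool.Agent.Helper28.MM.NSTEP
import Pool.Agent.Helper89.MM.HBLD
import Pool.Agent.Helper10.CM.BASE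
import Pool.Agent.Helper73.MM.Coef
import Pool.Agent.Helper66.MM.Diffeq
import Pool.Agent.Helper33.MM.EVLOC
import Pool.Agent.Helper7.MM.EX
import Pool.Agent.Helper26.CM.FSCALE
import Pool.Agent.Helper72.CM.Alg
import Pool.Agent.Helper72.CM.Inv
import Pool.Agent.Helper51.MM.LSTEP
import Pool.Agent.Helper48.CM.PACK
import Pool.Agent.Helper20.MM.SUMLIM

/-!
# Project MM, block B5: assembly of the existence theorem `ST_EX`

Inputs: the constant coefficient core estimate (B2), the solution operator `ST_S0` (B2),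
the a priori bounds `ST_B1` (B1) and the `L²` estimate `ST_L2` (B4).
-/

namespace CM

/-- The Schauder estimate with variable coefficients from the constant coefficient core. -/
theorem asm_UNI (core : MMB2.ST_CORE) (n : ℕ) : StUNI n :=
  row_UNI n (CM50.row_LOC n (row_BE0 core n) (CM50.row_CUT n))
    (CM50.row_FAR n (row_BE0 core n) (CM50.row_CUT n))

theorem asm_UNI' (core : MMB2.ST_CORE) (n : ℕ) : StUNI' n :=
  B3.row_UNI' n (asm_UNI core n) (row_INT1 n)

theorem asm_LEVEL (core : MMB2.ST_CORE) (n : ℕ) : StLEVEL n :=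
  B3.row_LEVEL n (asm_UNI' core n)

theorem asm_EVEN (core : MMB2.ST_CORE) (n : ℕ) : StEVEN n :=
  B3.row_EVEN n (asm_UNI' core n) (row_INT2 n) (asm_LEVEL core n)

theorem asm_HIGH (core : MMB2.ST_CORE) : ST_HIGH :=
  H35.high_of_level (asm_LEVEL core)

theorem asm_PACK (core : MMB2.ST_CORE) (hB1 : ST_B1) : ST_PACK :=
  CM48.st_PACK hB1 Helper73.MM.st_COEF (asm_HIGH core) CM.st_DIFFEQ CM72.st_HBALG
    CM72.st_HBINV CM33.st_EVLOC CM72.st_LIP0

theorem asm_APL (core : MMB2.ST_CORE) (hL2 : ST_L2) : ST_APL :=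
  st_APL (asm_EVEN core) hL2 Helper73.MM.st_COEF CM72.st_HBINV

/-- Existence of the moment map potential and linear solvability. -/
theorem asm_EX (core : MMB2.ST_CORE) (hS0 : ST_S0) (hB1 : ST_B1) (hL2 : ST_L2) : ST_EX :=
  MM7.st_EX (st_BASE hS0) (st_FSCALE CM72.st_HBALG) (asm_PACK core hB1)
    (st_LSTEP (asm_APL core hL2) st_SUMLIM CM72.st_HBINVD CM72.st_HBALG CM72.st_HBSUM)
    (st_NSTEP (asm_PACK core hB1) (asm_APL core hL2) st_SUMLIM CM89.st_HBLD' CM72.st_HBALG)
    CM72.st_HBALG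

end CM
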