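import Pool.Agent.Helper44.CM.Assembly
import Pool.Agent.Helper32.MM.CoreB2
import Pool.Agent.Helper85.MM.B1
import Pool.Agent.Helper63.MM.St
import Pool.Agent.Helper63.MM.Pair2
import Pool.Agent.Helper12.MM.StL2
import Pool.Agent.Helper12.MM.Final
import Pool.Agent.Helper2.MM.STK
import Pool.Agent.Helper4.MM.Star

/-!
# Project MM: assembly of the existence theorem and of the variance inequality
-/

namespace CM

/-- Existence of the moment map potential. -/
theorem asm2_EX (hS0 : ST_S0) : ST_EX := asm_EX MMB2.row_CORE hS0 st_B1 MM12.st_L2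

/-- The variance inequality (*). -/
theorem asm2_STAR (hS0 : ST_S0) : ST_STAR :=
  CM4.st_STAR (asm2_EX hS0) Pool.Agent.Helper2.MM.st_K H63.st_STEIN H63.st_PAIR MM12.st_DENS

end CM
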