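import Pool.Agent.Helper44.CM.Assembly2
import Pool.Agent.Helper87.MM.S0

/-!
# Project MM: unconditional existence theorem and variance inequality
-/

namespace CM

/-- Existence of the moment map potential. -/
theorem final_EX : ST_EX := asm2_EX CM87.st_S0

/-- The variance inequality (*). -/
theorem final_STAR : ST_STAR := asm2_STAR CM87.st_S0

end CM
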