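import Pool.Agent.Helper44.CM.Interface

/-!
# Project MM, block B5: rows (Hoelder calculus, linear and nonlinear steps, assembly)
-/

open MeasureTheory

namespace CM

/-- HBALG: elementary rules of the classes `H0`, `HB`, `H2`. -/
def ST_HBALG : Prop :=
  ∀ n : ℕ,
    (∀ (K : ℝ) (f : E n → ℝ), H0 K f → 0 ≤ K) ∧
    (∀ (k : ℕ) (c : ℝ), HB k |c| (fun _ : E n => c)) ∧
    (∀ (k j : ℕ) (a b : ℝ) (f : E n → ℝ), j ≤ k → a ≤ b → HB k a f → HB j b f) ∧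
    (∀ (k : ℕ) (a b : ℝ) (f g : E n → ℝ), HB k a f → HB k b g → HB k (a + b) (fun x => f x + g x)) ∧
    (∀ (k : ℕ) (a c : ℝ) (f : E n → ℝ), HB k a f → HB k (|c| * a) (fun x => c * f x)) ∧
    (∀ (k : ℕ) (a b : ℝ) (f g : E n → ℝ), HB k a f → HB k b g →
      HB k (2 ^ (k + 1) * a * b) (fun x => f x * g x)) ∧
    (∀ (k : ℕ) (a : ℝ) (f : E n → ℝ), HB (k + 1) a f → ∀ i, HB k a (pd i f)) ∧
    (∀ (k : ℕ) (a : ℝ) (f : E n → ℝ), ContDiff ℝ (k + 1 : ℕ) f → H0 a f →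
      (∀ i, HB k a (pd i f)) → HB (k + 1) a f) ∧
    (∀ (k : ℕ) (a : ℝ) (u : E n → ℝ), H2 (k + 1) a u → H2 k a u ∧ ∀ i, H2 k a (pd i u)) ∧
    (∀ (k : ℕ) (a : ℝ) (u : E n → ℝ), ContDiff ℝ (k + 3 : ℕ) u → H2 0 a u →
      (∀ i, H2 k a (pd i u)) → H2 (k + 1) a u)

/-- HBSUM: finite sums. -/
def ST_HBSUM : Prop :=
  ∀ (n k m : ℕ) (a : ℝ) (f : Fin m → E n → ℝ), (∀ i, HB k a (f i)) →
    HB k (m * a) (fun x => ∑ i, f i x)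

/-- LIP0: bounded with bounded gradient implies `H0`. -/
def ST_LIP0 : Prop :=
  ∀ (n : ℕ) (a : ℝ) (f : E n → ℝ), ContDiff ℝ 1 f → (∀ x, |f x| ≤ a) → (∀ x i, |pd i f x| ≤ a) →
    H0 (2 * (n + 1) * a) f

/-- HBINV: inverse matrices. -/
def ST_HBINV : Prop :=
  ∀ (n k : ℕ) (c K : ℝ), 0 < c → ∃ C : ℝ, ∀ G : E n → Mt n, (∀ x, LB c (G x)) →
    (∀ i j, HB k K (fun x => G x i j)) → ∀ i j, HB k C (fun x => (G x)⁻¹ i j)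

/-- HBINVD: difference of inverse matrices. -/
def ST_HBINVD : Prop :=
  ∀ (n k : ℕ) (c K : ℝ), 0 < c → ∃ C : ℝ, ∀ (G G' : E n → Mt n) (δ : ℝ), (∀ x, LB c (G x)) →
    (∀ x, LB c (G' x)) → (∀ i j, HB k K (fun x => G x i j)) → (∀ i j, HB k K (fun x => G' x i j)) →
    (∀ i j, HB k δ (fun x => G x i j - G' x i j)) →
    ∀ i j, HB k (C * δ) (fun x => (G x)⁻¹ i j - (G' x)⁻¹ i j)

/-- Remainder of `log det`. -/
noncomputable def Rm {n : ℕ} (G B : Mt n) : ℝ :=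
  tr2 G⁻¹ B - Real.log (G + B).det + Real.log G.det

/-- HBLD: the remainder of `log det` is quadratic, in difference form. -/
def ST_HBLD : Prop :=
  ∀ (n k : ℕ) (c K : ℝ), 0 < c → ∃ C ε0 : ℝ, 0 < ε0 ∧ ∀ (G B B' : E n → Mt n) (ε δ : ℝ),
    ε ≤ ε0 → (∀ x, (G x).IsSymm) → (∀ x, (B x).IsSymm) → (∀ x, (B' x).IsSymm) →
    (∀ x, LB c (G x)) → (∀ i j, HB k K (fun x => G x i j)) →
    (∀ i j, HB k ε (fun x => B x i j)) → (∀ i j, HB k ε (fun x => B' x i j)) →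
    (∀ i j, HB k δ (fun x => B x i j - B' x i j)) →
    HB k (C * ε * δ) (fun x => Rm (G x) (B x) - Rm (G x) (B' x))

/-- COMM: differentiating `A - κ`. -/
def ST_COMM : Prop :=
  ∀ (n : ℕ) (τ : E n → Mt n) (κ : ℝ) (u : E n → ℝ) (i : Fin n), ContDiff ℝ 3 u →
    (∀ a b, ContDiff ℝ 1 (fun x => τ x a b)) →
    ∀ x, AK τ (κ - 1) (pd i u) x =
      pd i (AK τ κ u) x + ∑ a, ∑ b, pd i (fun y => τ y a b) x * pd a (pd b u) x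

/-- HIGH: higher order estimates by differentiation. -/
def ST_HIGH : Prop :=
  ∀ (n j : ℕ) (K κ : ℝ), κ ≤ 1 → ∃ C R : ℝ, ∀ (τ : E n → Mt n), Coef K τ →
    (∀ a b, HB j K (fun x => τ x a b)) →
    ∀ (u : E n → ℝ) (M N : ℝ), H2 j M u → HB j N (AK τ κ u) →
    (∀ x, ‖x‖ ≤ R → |u x| ≤ N) → (∀ x i, ‖x‖ ≤ R → |pd i u x| ≤ N) → H2 j (C * N) u

/-- DIFFEQ: the differentiated moment map equation, `A (∂_i V - x_i) = ∂_i F`. -/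
def ST_DIFFEQ : Prop :=
  ∀ (n : ℕ) (F V : E n → ℝ) (i : Fin n), ContDiff ℝ 1 F → Sol F V →
    ∀ x, AK (tau V) 0 (fun y => pd i V y - y i) x = pd i F x

/-- COEF: the coefficient of a solution is admissible. -/
def ST_COEF : Prop :=
  ∀ (n : ℕ) (c K : ℝ), 0 < c → ∃ K' : ℝ, ∀ V : E n → ℝ, ContDiff ℝ 3 V →
    (∀ x, LB c (hess V x)) → (∀ x i j, |hess V x i j| ≤ K) →
    (∀ x (l : List (Fin n)), l.length = 3 → |pdl l V x| ≤ K) →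
    (∀ x i j, |hess V x i j - (1 : Mt n) i j| ≤ K / Real.sqrt (1 + ‖x‖)) → Coef K' (tau V)

/-- PACK: uniform bounds for all solutions. -/
def ST_PACK : Prop :=
  ∀ (n : ℕ) (c K R0 : ℝ), ∃ K2 : ℝ, ∀ F V : E n → ℝ, FOK c K R0 F → Sol F V → Pack c K2 V

/-- LOCSUP: local sup of a Hoelder function by its weighted `L²` norm. -/
def ST_LOCSUP : Prop :=
  ∀ (n : ℕ) (R s : ℝ), 0 < s → ∃ C : ℝ, ∀ (f : E n → ℝ) (M N : ℝ), 0 ≤ N → H0 M f →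
    Integrable (fun x : E n => f x ^ 2 * Real.exp (- qn x)) →
    ∫ x : E n, f x ^ 2 * Real.exp (- qn x) ≤ N ^ 2 → ∀ x, ‖x‖ ≤ R → |f x| ≤ C * N + M * Real.sqrt s

/-- EVLOC: an even function on a ball is controlled by its value at `0` and its Hessian. -/
def ST_EVLOC : Prop :=
  ∀ (n : ℕ) (R : ℝ), 0 ≤ R → ∃ C : ℝ, ∀ (u : E n → ℝ) (a b : ℝ), ContDiff ℝ 2 u → IsEv u →
    |u 0| ≤ a → (∀ x i j, ‖x‖ ≤ R → |pd i (pd j u) x| ≤ b) →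
    ∀ x, ‖x‖ ≤ R → |u x| ≤ a + C * b ∧ ∀ i, |pd i u x| ≤ C * b

/-- APL0: uniform a priori estimate, level 0. -/
def ST_APL0 : Prop :=
  ∀ (n : ℕ) (c K : ℝ), 0 < c → ∃ C : ℝ, ∀ V : E n → ℝ, IsEv V → Pack c K V →
    ∀ (u r : E n → ℝ) (M N : ℝ), IsEv u → H2 3 M u → (∀ x, AK (tau V) 1 u x = r x) → HB 3 N r →
      H2 0 (C * N) u ∧ |u 0| ≤ C * N

/-- APL: uniform a priori estimate, level 3. -/
def ST_APL : Prop :=
  ∀ (n : ℕ) (c K : ℝ), 0 < c → ∃ C : ℝ, ∀ V : E n → ℝ, IsEv V → Pack c K V →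
    ∀ (u r : E n → ℝ) (M N : ℝ), IsEv u → H2 3 M u → (∀ x, AK (tau V) 1 u x = r x) → HB 3 N r →
      H2 3 (C * N) u ∧ |u 0| ≤ C * N

/-- SUMLIM: geometric series in the class `H2 3`. -/
def ST_SUMLIM : Prop :=
  ∀ (n : ℕ) (u : ℕ → E n → ℝ) (M : ℝ), (∀ m, IsEv (u m)) → (∀ m, H2 3 (M * (1 / 2) ^ m) (u m)) →
    (∀ m, |u m 0| ≤ M * (1 / 2) ^ m) →
    ∃ v : E n → ℝ, IsEv v ∧ H2 3 (2 * M) v ∧ (∀ x, HasSum (fun m => u m x) (v x)) ∧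
      (∀ x, HasSum (fun m => eul (u m) x) (eul v x)) ∧
      ∀ x i j, HasSum (fun m => pd i (pd j (u m)) x) (pd i (pd j v) x)

/-- LSTEP: propagation of linear solvability. -/
def ST_LSTEP : Prop :=
  ∀ (n : ℕ) (c K : ℝ), 0 < c → ∃ ε : ℝ, 0 < ε ∧ ∀ V V' : E n → ℝ, IsEv V → IsEv V' →
    Pack c K V → Pack c K V' → H2 3 ε (fun x => V' x - V x) → LinSolv V → LinSolv V'

/-- NSTEP: the nonlinear step. -/
def ST_NSTEP : Prop :=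
  ∀ (n : ℕ) (c K R0 ε : ℝ), 0 < ε → ∃ δ : ℝ, 0 < δ ∧ ∀ F F' V : E n → ℝ, FOK c K R0 F →
    FOK c K R0 F' → HB 3 δ (fun x => F' x - F x) → Sol F V → LinSolv V →
    ∃ V' : E n → ℝ, Sol F' V' ∧ H2 3 ε (fun x => V' x - V x)

/-- BASE: the Gaussian. -/
def ST_BASE : Prop :=
  ∀ n : ℕ, Sol (fun _ : E n => 0) qn ∧ LinSolv (qn : E n → ℝ)

/-- FSCALE: the path `t F`. -/
def ST_FSCALE : Prop :=
  ∀ (n : ℕ) (c K R0 : ℝ) (F : E n → ℝ), FOK c K R0 F → ∀ t : ℝ, 0 ≤ t → t ≤ 1 →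
    FOK c K R0 (fun x => t * F x)

end CM
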